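import Pool.Agent.H138.SHA.Sph
import Pool.Graph.R_pool_sql_team_seeded_1acbe0a2.Y938.SH.Line
import Pool.Graph.R_pool_sql_team_seeded_1acbe0a2.Y938.SH.Sph

/-!
# MP_1a07a1_gt: exactly the nonempty analytic sets

For `n ≥ 3` a subset `C` of the unit sphere `S^(n-1)` of `ℝⁿ` is the image of an everywhere existing
pointwise limit of self-homeomorphisms of the sphere if and only if `C` is nonempty and analytic
(Suslin).  In particular this holds for every nonempty Borel set, not only for the closed ones that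
the question asks about.  The theorem also records the closed sets of the circle (`n = 2`).
-/

set_option autoImplicit false

open Filter Topology Set

namespace Pool.Agent.Results.MP_1a07a1_gt.AnalyticImages

/-- The unit sphere `S^(n-1)` of `ℝⁿ`. -/
abbrev Sphere (n : ℕ) : Type := ↥(Metric.sphere (0 : EuclideanSpace ℝ (Fin n)) (1 : ℝ))

/-- `(H_k)` converges pointwise onto `C`: for every point `p` the limit of `H_k p` exists and lies in
`C`, and every point of `C` is such a limit. -/
def ConvergesOnto {n : ℕ} (H : ℕ → (Sphere n ≃ₜ Sphere n)) (C : Set (Sphere n)) : Prop :=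
  (∀ p : Sphere n, ∃ q ∈ C, Tendsto (fun k : ℕ => H k p) atTop (𝓝 q)) ∧
  (∀ q ∈ C, ∃ p : Sphere n, Tendsto (fun k : ℕ => H k p) atTop (𝓝 q))

/-- For `n ≥ 3` the sets onto which some sequence of self-homeomorphisms of `S^(n-1)` converges
pointwise are exactly the nonempty analytic sets; for `n = 2` every nonempty closed set is one. -/
theorem result :
    (∀ n : ℕ, 3 ≤ n → ∀ C : Set (Sphere n),
      (∃ H : ℕ → (Sphere n ≃ₜ Sphere n), ConvergesOnto H C) ↔
        (C.Nonempty ∧ MeasureTheory.AnalyticSet C)) ∧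
    (∀ n : ℕ, 2 ≤ n → ∀ C : Set (Sphere n), IsClosed C → C.Nonempty →
      ∃ H : ℕ → (Sphere n ≃ₜ Sphere n), ConvergesOnto H C) := by
  have hmain : ∀ n : ℕ, 3 ≤ n → ∀ C : Set (Sphere n),
      (∃ H : ℕ → (Sphere n ≃ₜ Sphere n), ConvergesOnto H C) ↔
        (C.Nonempty ∧ MeasureTheory.AnalyticSet C) := by
    intro n hn C
    constructor
    · rintro ⟨H, h1, h2⟩
      refine ⟨?_, Pool.Agent.H138.SHA.analytic_of_exists C H h1 h2⟩
      obtain ⟨l, rfl⟩ : ∃ l, n = l + 1 := ⟨n - 1, by omega⟩
      obtain ⟨p⟩ : Nonempty (Sphere (l + 1)) :=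
        (NormedSpace.sphere_nonempty.2 zero_le_one).to_subtype
      obtain ⟨q, hq, _⟩ := h1 p
      exact ⟨q, hq⟩
    · rintro ⟨hne, hC⟩
      exact Pool.Agent.H138.SHA.exists_of_analytic n hn C hC hne
  refine ⟨hmain, ?_⟩
  intro n hn C hC hne
  by_cases h3 : 3 ≤ n
  · exact (hmain n h3 C).2 ⟨hne, hC.analyticSet⟩
  · obtain rfl : n = 1 + 1 := by omega
    refine Pool.Agent.Y938.SH.sphere_spec 1 le_rfl ?_ C hC hne
    intro V _ _ _ hV
    have h1 : Module.finrank ℝ ℝ = Module.finrank ℝ V := by rw [hV]; simp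
    obtain ⟨e⟩ := FiniteDimensional.nonempty_continuousLinearEquiv_of_finrank_eq h1
    exact Pool.Agent.Y938.SH.transport_spec ℝ V e Pool.Agent.Y938.SH.line_spec

end Pool.Agent.Results.MP_1a07a1_gt.AnalyticImages
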